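import Pool.Agent.H84.S2.TgE
import Pool.Agent.H26.SF.MXZ
import Pool.Agent.H3.SF.Tg2

/-!
# Row E_CRX of the board s2l_modules: from the coordinates of the curve to the data of the plane
image
-/

set_option autoImplicit false

namespace Pool.Agent.H36.S2

open MvPolynomial
open _root_.SC
open Pool.Agent.H27.LV (ge deg poleOrder canDeg DegreeBound)
open Pool.Agent.H84.SM (cr dt dp)
open Pool.Agent.H84.SL (pd)
open Pool.Agent.H3.SF (Itg Bb BB Hm eu grd hes Sfc Crd Crf Prm nv Vl)
open Pool.Agent.H84.SF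
open Pool.Agent.H3.S2
open Pool.Agent.H84.S2
open Pool.Agent.H17.SD (Prj Smo HRel)

theorem pf_CRX (hPOZ : T_POZ) (hPHI : Pool.Agent.H17.SD.T_PHI) (hVLI : Pool.Agent.H3.SF.T_VLI) :
    T_CRX := by
  classical
  intro k F σ K _ _ _ _ _ _ _ _ X u θ dd J δ j0 c0 c hS m GP sg SP hGP hSP s S b hSh hb heq z Sp
    hz hJ hSz
  have hF : CharZero F := charZero_of_injective_algebraMap (algebraMap k F).injective
  -- the relations are homogeneous
  have hE : ∀ i, Hm k (eu u dd) 1 (X i) := fun i => by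
    unfold Hm
    rw [hS.prj.Xeu i]
    push_cast
    ring
  have hEu : ∀ i, Hm k (eu u dd) 1 (u i) := fun i => by
    unfold Hm
    have h1 : eu u dd (u i) = u i := by
      conv_lhs => rw [hS.lin i]
      rw [map_sum, hS.lin i]
      refine Finset.sum_congr rfl fun s _ => ?_
      rw [Derivation.map_smul, hS.prj.Xeu]
    rw [h1]
    push_cast
    ring
  have hH : HRel k X := by
    intro f hf d
    have h0 : ∑ i ∈ Finset.range (f.totalDegree + 1), aeval X (homogeneousComponent i f) = 0 := by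
      rw [← map_sum, sum_homogeneousComponent, hf]
    by_cases hd : d ∈ Finset.range (f.totalDegree + 1)
    · exact Pool.Agent.H62.HIL.hm_sum_eq_zero (κ := k) (E := eu u dd)
        (Finset.range (f.totalDegree + 1)) (fun i => (i : ℤ))
        (fun a _ b _ hab => by simpa using hab) (fun i => aeval X (homogeneousComponent i f))
        (fun e _ => Pool.Agent.H62.HIL.hm_aeval hE (homogeneousComponent_isHomogeneous e f)) h0 d hd
    · rw [homogeneousComponent_eq_zero, map_zero]
      simp only [Finset.mem_range] at hd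
      omega
  have hzI : ∀ f : MvPolynomial σ k, aeval X f = 0 → aeval z f = 0 := fun f hf =>
    hz.on f (by rw [RingHom.mem_ker]; exact hf)
  obtain ⟨l0, hl0, hpo⟩ := hPOZ k F σ K X u dd c hS.sfc.du hS.prj.Xint hS.prj.Xeu hS.lin z hzI
    hz.one
  have hinv : (lin c z l0)⁻¹ ≠ 0 := inv_ne_zero hl0
  obtain ⟨t, ht⟩ : ∃ t : K, t = (lin c z l0)⁻¹ := ⟨_, rfl⟩
  rw [← ht] at hinv
  -- the scaled curve
  have hz1 : ∀ f : MvPolynomial σ k, aeval X f = 0 → aeval (fun s => t * z s) f = 0 :=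
    fun f hf => Pool.Agent.H26.SF.mxz_scale_zero X hH z hzI _ f hf
  have hx : ∀ l, ∑ s, c l s • (t * z s) = t * lin c z l := by
    intro l
    unfold lin
    rw [Finset.mul_sum]
    refine Finset.sum_congr rfl fun s _ => ?_
    rw [mul_smul_comm]
  have hxJ : aeval (fun l => t * lin c z l) J = t ^ j0 * aeval (lin c z) J :=
    Pool.Agent.H26.SF.mxz_scale J j0 hS.sfc.Jh _ _
  have hJ1 : aeval (fun l => ∑ s, c l s • (t * z s)) J ≠ 0 := by
    simp only [hx]
    rw [hxJ]
    exact mul_ne_zero (pow_ne_zero _ hinv) hJ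
  obtain ⟨φ, hφ⟩ := hPHI k F σ K X u θ dd J hS.sfc.ind hS.prj
    (fun s => t * z s) hz1 c hS.lin hJ1
  have hg : aeval (fun s => t * z s) GP = t ^ m * aeval z GP :=
    Pool.Agent.H26.SF.mxz_scale GP m hGP _ _
  have hgS : aeval (fun s => t * z s) SP = t ^ sg * aeval z SP :=
    Pool.Agent.H26.SF.mxz_scale SP sg hSP _ _
  have hxS : aeval (fun l => t * lin c z l) S = t ^ s * aeval (lin c z) S :=
    Pool.Agent.H26.SF.mxz_scale S s hSh _ _
  have hxS0 : aeval (fun l => t * lin c z l) S ≠ 0 := by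
    rw [hxS]
    exact mul_ne_zero (pow_ne_zero _ hinv) hSz
  -- values of forms in the coordinates
  have hval : ∀ (P : MvPolynomial σ k) (a : Bb k u), (a : F) = aeval X P →
      φ a = aeval (fun s => t * z s) P := by
    intro P a ha
    have ha2 : a = aeval (fun s => (⟨X s, hS.prj.Xint s⟩ : Bb k u)) P := by
      apply Subtype.ext
      rw [ha]
      have := MvPolynomial.comp_aeval_apply (R := k) (fun s => (⟨X s, hS.prj.Xint s⟩ : Bb k u))
        (Bb k u).val P
      exact this.symm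
    rw [ha2, MvPolynomial.comp_aeval_apply]
    congr 2
    funext s
    exact hφ s ⟨X s, hS.prj.Xint s⟩ rfl
  have hcx : ∀ (i : Fin 3) (a : Bb k u), (a : F) = u i → φ a = t * lin c z i := by
    intro i a ha
    have ha2 : a = ∑ s, c i s • (⟨X s, hS.prj.Xint s⟩ : Bb k u) := by
      apply Subtype.ext
      rw [ha, hS.lin i]
      simp
    rw [ha2, map_sum, ← hx i]
    refine Finset.sum_congr rfl fun s _ => ?_
    rw [map_smul, hφ s ⟨X s, hS.prj.Xint s⟩ rfl]
  have hone : ∃ j, (fun l => t * lin c z l) j = 1 := ⟨l0, by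
    change t * lin c z l0 = 1
    rw [ht, inv_mul_cancel₀ hl0]⟩
  have hui : ∀ i, Itg k u (u i) := by
    intro i
    have h1 : u i = aeval u (MvPolynomial.X i : MvPolynomial (Fin 3) k) := (aeval_X _ _).symm
    rw [h1]
    exact RingHom.isIntegralElem_map _
  have hvalu : ∀ (P : MvPolynomial (Fin 3) k) (a : Bb k u), (a : F) = aeval u P →
      φ a = aeval (fun l => t * lin c z l) P := by
    intro P a ha
    have ha2 : a = aeval (fun l => (⟨u l, hui l⟩ : Bb k u)) P := by
      apply Subtype.ext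
      rw [ha]
      have := MvPolynomial.comp_aeval_apply (R := k) (fun l => (⟨u l, hui l⟩ : Bb k u))
        (Bb k u).val P
      exact this.symm
    rw [ha2, MvPolynomial.comp_aeval_apply]
    congr 2
    funext l
    exact hcx l ⟨u l, hui l⟩ rfl
  -- the element `b`
  have hSPi : Itg k u (aeval X SP) := by
    have h1 := (aeval (fun s => (⟨X s, hS.prj.Xint s⟩ : Bb k u)) SP).2
    have h2 : ((aeval (fun s => (⟨X s, hS.prj.Xint s⟩ : Bb k u)) SP : Bb k u) : F) =
        aeval X SP := by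
      have := MvPolynomial.comp_aeval_apply (R := k) (fun s => (⟨X s, hS.prj.Xint s⟩ : Bb k u))
        (Bb k u).val SP
      exact this
    rw [h2] at h1
    exact h1
  obtain ⟨bb, hbb⟩ : ∃ bb : Bb k u, bb = ⟨b, hb⟩ := ⟨_, rfl⟩
  obtain ⟨sp, hsp⟩ : ∃ sp : Bb k u, sp = ⟨aeval X SP, hSPi⟩ := ⟨_, rfl⟩
  have hprod : aeval (fun l => t * lin c z l) S = (t ^ sg * aeval z SP) * φ bb := by
    have h1 := hvalu S (sp * bb) (by rw [heq, hsp, hbb]; rfl)
    rw [← h1, map_mul, hval SP sp (by rw [hsp]), hgS]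
  have hφb : φ bb ≠ 0 := by
    intro h0
    rw [h0, mul_zero] at hprod
    exact hxS0 hprod
  have hS0 : S ≠ 0 := by
    intro h0
    apply hSz
    rw [h0, map_zero]
  have hA : aeval X SP ≠ 0 := by
    intro h0
    rw [h0, zero_mul] at heq
    apply hS0
    have h1 := hS.sfc.ind
    exact (injective_iff_map_eq_zero _).1 h1 S heq
  have hbH : Hm k (eu u dd) ((s : ℤ) - sg) b := by
    have h1 : Hm k (eu u dd) (s : ℤ) (aeval u S) := Pool.Agent.H62.HIL.hm_aeval hEu hSh
    have h2 : Hm k (eu u dd) (sg : ℤ) (aeval X SP) := Pool.Agent.H62.HIL.hm_aeval hE hSP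
    have h3 := Pool.Agent.H62.HIL.hm_div (κ := k) (E := eu u dd) h1 h2 hA
    have h4 : aeval u S / aeval X SP = b := by
      rw [heq, mul_div_cancel_left₀ _ hA]
    rw [h4] at h3
    exact h3
  have hvb : Vl u φ b (φ bb) := by
    refine ⟨1, bb, ?_, ?_, ?_⟩
    · rw [map_one]; exact one_ne_zero
    · rw [OneMemClass.coe_one, one_mul, hbb]
    · rw [map_one, one_mul]
  refine ⟨φ, fun l => t * lin c z l, t ^ m * aeval z GP, t, hinv, fun l => rfl, hcx, hone, ?_,
    hxS0, ?_, mul_ne_zero (pow_ne_zero _ hinv) hz.ne, ?_⟩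
  · rw [hxJ]
    exact mul_ne_zero (pow_ne_zero _ hinv) hJ
  · intro a ha
    rw [hval GP a ha, hg]
  · intro v hv
    have h1 := hz.off v hv
    have h2 := hpo v
    have h3 : (fun l => t * lin c z l) = fun l => lin c z l / lin c z l0 := by
      funext l
      rw [div_eq_mul_inv, mul_comm, ht]
    have h4 : v.ord t = -v.ord (lin c z l0) := by
      rw [ht, Pool.Agent.H26.SF.mxz_ord_inv v _ hl0]
    have hVL := hVLI k F K u dd δ j0 c0 J hS.sfc φ (fun l => t * lin c z l) hcx hone v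
      ((s : ℤ) - sg) b (φ bb) hb hbH hvb hφb
    rw [hprod]
    unfold nv at hVL ⊢
    have hne : t ^ sg * aeval z SP ≠ 0 := mul_ne_zero (pow_ne_zero _ hinv) hz.Sne
    rw [v.ord_mul _ _ hne hφb, v.ord_mul _ _ (pow_ne_zero _ hinv) hz.Sne,
      v.ord_mul _ _ (pow_ne_zero _ hinv) hz.ne, Pool.Agent.H26.SF.mxz_ord_pow v _ hinv,
      Pool.Agent.H26.SF.mxz_ord_pow v _ hinv, h4]
    rw [h3] at hVL ⊢
    rw [h2] at hVL ⊢
    linarith

end Pool.Agent.H36.S2
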