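import Pool.Agent.H68.CK.Fin
import Pool.Agent.H68.CK.Wfg
import Pool.Agent.H78.CT.C1
import Pool.Agent.H2.CK.T8

/-! The statement on zero squares, unconditionally, and the final theorem. -/

namespace H36.S2

open Subgroup H36.CH

/-- The conjugates of a central element of `A` form one class under `W`. -/
theorem cov {G : Type} [Group G] {A A0 P B B0 Q : Subgroup G} (h : Cfg A A0 P B B0 Q)
    {W : Subgroup G} (hW : W.Normal) (hmin : ∀ N : Subgroup G, N.Normal → N ≠ ⊥ → W ≤ N)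
    (hperf : ⁅W, W⁆ = W) (hA : A ⊔ W = ⊤) {a : G} (ha1 : a ≠ 1) (ha : a ∈ A)
    (hac : ∀ x ∈ A, x * a = a * x) : H78.CT.Cov W {x | ∃ g : G, x = g * a * g⁻¹} where
  perf := hperf
  min := hmin
  conj := by
    rintro _ ⟨g, rfl⟩ k
    exact ⟨k * g, by group⟩
  trans := by
    have key : ∀ g : G, ∃ w ∈ W, g * a * g⁻¹ = w * a * w⁻¹ := by
      intro g
      have h1 : g ∈ W ⊔ A := by
        rw [sup_comm, hA]
        exact Subgroup.mem_top g
      obtain ⟨w, hw, b, hb, rfl⟩ := Subgroup.mem_sup_of_normal_left.mp h1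
      refine ⟨w, hw, ?_⟩
      calc w * b * a * (w * b)⁻¹ = w * (b * a) * b⁻¹ * w⁻¹ := by group
        _ = w * (a * b) * b⁻¹ * w⁻¹ := by rw [hac b hb]
        _ = _ := by group
    rintro _ ⟨g, rfl⟩ _ ⟨k, rfl⟩
    obtain ⟨w, hw, hw2⟩ := key g
    obtain ⟨v, hv, hv2⟩ := key k
    refine ⟨v * w⁻¹, W.mul_mem hv (W.inv_mem hw), ?_⟩
    rw [hw2, hv2]
    group
  ord := by
    rintro _ ⟨g, rfl⟩
    obtain ⟨n, hn, hn1⟩ := h.hyp.sa.dp.torsion ha
    refine ⟨n, hn, ?_⟩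
    rw [conj_pow, hn1, mul_one, mul_inv_cancel]
  two := by
    by_contra hcon
    push Not at hcon
    have hc : ∀ g : G, a * g = g * a := by
      intro g
      have h1 := hcon a ⟨1, by group⟩ (g * a * g⁻¹) ⟨g, rfl⟩
      calc a * g = (g * a * g⁻¹) * g := by rw [← h1]
        _ = _ := by group
    exact ha1 (h.cent a (fun x _ => hc x) (fun x _ => hc x))

/-- Zero squares with a central horizontal side have an infinite centraliser. -/
theorem t8 (G : Type) [Group G] (A A0 P B B0 Q : Subgroup G) (h : Cfg A A0 P B B0 Q)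
    (hm : Mini A P B Q) : H78.CT.T8 A A0 B0 := by
  obtain ⟨W, hn, -, hfg, hmin, hperf, hA, -, hcent⟩ := h.exists_W hm
  refine Pool.Agent.H2.CK.T8_of h W hn hfg ?_ ?_
  · intro g hg
    have h1 : g ∈ Subgroup.centralizer (W : Set G) := by
      rw [Subgroup.mem_centralizer_iff]
      intro w hw
      exact (hg w hw).symm
    rw [hcent, Subgroup.mem_bot] at h1
    exact h1
  · intro a ha1 ha hac T
    have hc := cov h hn hmin hperf hA ha1 ha hac
    have hdif : ∀ S : Set G, H78.CT.Dif {x | ∃ g ∈ S, x = g * a * g⁻¹} ≤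
        Pool.Agent.H2.CK.dif a S := by
      intro S
      rw [H78.CT.Dif, Subgroup.closure_le]
      rintro _ ⟨_, ⟨g, hg, rfl⟩, _, ⟨k, hk, rfl⟩, rfl⟩
      exact Subgroup.subset_closure ⟨g, hg, k, hk, rfl⟩
    have h1 : {x | ∃ g ∈ T, x = g * a * g⁻¹} ⊆ {x | ∃ g : G, x = g * a * g⁻¹} := by
      rintro _ ⟨g, -, rfl⟩
      exact ⟨g, rfl⟩
    have h2 : {x | ∃ g ∈ Tᶜ, x = g * a * g⁻¹} ⊆ {x | ∃ g : G, x = g * a * g⁻¹} := by
      rintro _ ⟨g, -, rfl⟩
      exact ⟨g, rfl⟩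
    have h3 : {x | ∃ g : G, x = g * a * g⁻¹} ⊆
        {x | ∃ g ∈ T, x = g * a * g⁻¹} ∪ {x | ∃ g ∈ Tᶜ, x = g * a * g⁻¹} := by
      rintro _ ⟨g, rfl⟩
      by_cases hg : g ∈ T
      · exact Or.inl ⟨g, hg, rfl⟩
      · exact Or.inr ⟨g, hg, rfl⟩
    rcases H78.CT.two_cover hc hfg h1 h2 h3 with h4 | h4
    · exact Or.inl (h4.trans (hdif T))
    · exact Or.inr (h4.trans (hdif Tᶜ))

end H36.S2
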