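import Pool.Agent.H84.S2.Tg
import Pool.Agent.H86.SF.LOC
import Pool.Agent.H62.HIL.Eig

/-!
# Contact at the points where `J A` is divisible by the equation of the curve (TRV)
-/

set_option autoImplicit false

namespace Pool.Agent.H36.S2

open MvPolynomial _root_.SC
open Pool.Agent.H27.LV (ge deg poleOrder canDeg ge_const)
open Pool.Agent.H84.SM (cr dt dp)
open Pool.Agent.H3.SF (Itg Bb BB Hm eu grd hes Sfc Crd Cnn Crf Prm nv)
open Pool.Agent.H84.SF Pool.Agent.H3.S2 Pool.Agent.H84.S2
open Pool.Agent.H86.SF (nv_nonneg nv_zero ge_aeval ge_aeval_sub aeval_hs ord_nv bX val_bX phi_bX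
  hom_aeval)
open Pool.Agent.H62.HIL (hm_mul hm_aeval)

theorem hm_uniq {k F : Type} [Field k] [Field F] [Algebra k F] [CharZero F]
    {E : Derivation k F F} {a : F} {s t : ℤ} (ha : a ≠ 0)
    (hs : Hm k E s a) (ht : Hm k E t a) : s = t := by
  unfold Hm at *
  rw [hs] at ht
  exact Int.cast_injective (mul_right_cancel₀ ha ht)

theorem pf_TRV (hCNY : T_CNY) : T_TRV := by
  intro k F σ _ _ _ _ _ _ _ X u dd J j0 m G GP sg S hS hm hC hGP hGG α A b hb s hs0 hcone hDv
  obtain ⟨d, d', a, b0, ha, hb0, hbs, hid⟩ := hDv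
  intro K _ _ _ htr φ x g Sp hCr hP hA D hD B hB hE v c hc hcP hcs
  have hchar : CharZero F := charZero_of_injective_algebraMap (algebraMap k F).injective
  obtain ⟨U, hU⟩ := Classical.axiomOfChoice hS.ulin
  set z : σ → K := fun i => φ (bX hS.Xint i) with hzdef
  have hz : ∀ i, ge v 1 (c * z i - algebraMap k K (s i)) := fun i =>
    hcs i (bX hS.Xint i) rfl
  have hxU : ∀ l, x l = aeval z (U l) := by
    intro l
    rw [← hCr.cx l (aeval (bX hS.Xint) (U l)) (by rw [val_bX]; exact (hU l).2)]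
    exact phi_bX hS.Xint φ _ (fun _ => rfl) _
  have hgG : g = aeval z GP := by
    rw [← hCr.gx (aeval (bX hS.Xint) GP) (by rw [val_bX]; exact hGG)]
    exact phi_bX hS.Xint φ _ (fun _ => rfl) _
  have hxs : ∀ l, ge v 1 (c * x l - algebraMap k K (eval s (U l))) := by
    intro l
    have h1 := ge_aeval_sub (v := v) (y := fun i => c * z i) hz (U l)
    rw [aeval_hs (hU l).1, pow_one, ← hxU l] at h1
    exact h1
  have hx0 : ∀ l, ge v 0 (c * x l) := by
    intro l
    have h1 := ((hxs l).mono (by norm_num : (0 : ℤ) ≤ 1)).add (ge_const v (eval s (U l)))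
    rwa [sub_add_cancel] at h1
  have hz0 : ∀ i, ge v 0 (c * z i) := by
    intro i
    have h1 := ((hz i).mono (by norm_num : (0 : ℤ) ≤ 1)).add (ge_const v (s i))
    rwa [sub_add_cancel] at h1
  have nA := nv_nonneg hc hcP hx0 hb.hA hA
  have nJ := nv_nonneg hc hcP hx0 hS.Jh hCr.Jx
  -- the identity at the curve
  have hcompF : ∀ P : MvPolynomial (Fin 3) k, aeval X (aeval U P) = aeval u P := by
    intro P
    rw [hom_aeval (aeval X) U P]
    congr 2
    funext l
    exact (hU l).2
  have hcompK : ∀ P : MvPolynomial (Fin 3) k, aeval z (aeval U P) = aeval x P := by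
    intro P
    rw [hom_aeval (aeval z) U P]
    congr 2
    funext l
    exact (hxU l).symm
  have hidX : aeval X (aeval U (J * A) * b0) = aeval X (GP * a) := by
    rw [map_mul (aeval X) (aeval U (J * A)) b0, map_mul (aeval X) GP a, hcompF]
    exact hid
  have hidB : aeval (bX hS.Xint) (aeval U (J * A) * b0) = aeval (bX hS.Xint) (GP * a) :=
    Subtype.ext (by rw [val_bX, val_bX]; exact hidX)
  have hidK : aeval x J * aeval x A * aeval z b0 = g * aeval z a := by
    have h1 := congrArg φ hidB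
    rw [phi_bX hS.Xint φ z (fun _ => rfl), phi_bX hS.Xint φ z (fun _ => rfl),
      map_mul (aeval z) (aeval U (J * A)) b0, map_mul (aeval z) GP a, hcompK, map_mul,
      ← hgG] at h1
    exact h1
  obtain ⟨hbz, nb⟩ := nv_zero (x := x) hc hcP hz hb0 hbs
  have haz : aeval z a ≠ 0 := by
    intro h0
    rw [h0, mul_zero] at hidK
    exact (mul_ne_zero (mul_ne_zero hCr.Jx hA) hbz) hidK
  have na : 0 ≤ nv v x d' (aeval z a) := by
    have h1 := ge_aeval (v := v) (y := fun i => c * z i) hz0 a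
    rw [aeval_hs ha] at h1
    rw [← ord_nv hc hcP haz]
    exact h1.resolve_left (mul_ne_zero (pow_ne_zero _ hc) haz)
  -- degrees
  have hXeu : ∀ i, Hm k (eu u dd) 1 (X i) := by
    intro i
    unfold Hm
    rw [hS.Xeu i]
    simp
  have hueu : ∀ i, Hm k (eu u dd) 1 (u i) := by
    intro i
    have h1 := hm_aeval hXeu (hU i).1
    rw [(hU i).2] at h1
    simpa using h1
  have hJu : aeval u J ≠ 0 := by
    intro h0
    exact hS.J0 (hS.ind (by rw [h0, map_zero]))
  have hAu : aeval u A ≠ 0 := by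
    intro h0
    exact hb.ne (hS.ind (by rw [h0, map_zero]))
  have hbX0 : aeval X b0 ≠ 0 := by
    intro h0
    exact hbs (hcone.pt b0 h0)
  have hne : aeval u (J * A) * aeval X b0 ≠ 0 := by
    rw [map_mul]
    exact mul_ne_zero (mul_ne_zero hJu hAu) hbX0
  have h1 : Hm k (eu u dd) (((j0 + α : ℕ) : ℤ) + d) (aeval u (J * A) * aeval X b0) :=
    hm_mul (hm_aeval hueu (hS.Jh.mul hb.hA)) (hm_aeval hXeu hb0)
  have h2 : Hm k (eu u dd) ((m : ℤ) + d') (aeval u (J * A) * aeval X b0) := by
    rw [hid]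
    exact hm_mul (hm_aeval hXeu hGP) (hm_aeval hXeu ha)
  have hdeg := hm_uniq hne h1 h2
  have hord : v.ord (aeval x J) + v.ord (aeval x A) + v.ord (aeval z b0) =
      v.ord g + v.ord (aeval z a) := by
    rw [← v.ord_mul' hCr.Jx hA, ← v.ord_mul' (mul_ne_zero hCr.Jx hA) hbz,
      ← v.ord_mul' hCr.ne haz, hidK]
  have key : nv v x j0 (aeval x J) + nv v x α (aeval x A) + nv v x d (aeval z b0) =
      nv v x m g + nv v x d' (aeval z a) := by
    unfold nv
    have hdeg' : ((j0 : ℤ) + α + d) * poleOrder v x = (m + d') * poleOrder v x := by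
      rw [← hdeg]
      push_cast
      ring
    linear_combination hord + hdeg'
  push_cast
  omega

end Pool.Agent.H36.S2
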